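import Pool.Agent.H698.HF.Core
import Pool.Graph.R_pool_sql_team_seeded_1acbe0a2.Y612.Eq.Fin
import Pool.Graph.R_pool_sql_team_seeded_1acbe0a2.Y612.Eq.Comb
import Pool.Graph.R_seed8.W994.AR.Final

set_option autoImplicit false

/-! # Constraint satisfaction and circuits with unknown inputs (helper698) -/

open scoped Classical
open Finset

namespace Pool.Agent.H698.UC

open Pool.Agent.H698.HF
open Pool.Agent.Y612.Eq (Con Holds Solvable ConstructsK3 Hard Easy Inv HasConst HasInj bits
  exists_large)
open Pool.Agent.Y612 (MCirc Avail)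
open H630VC (FProg Mono2 combos wires)

variable {ι : Type} {ar : ι → ℕ} {B : Type}

/-- The randomised circuit `l` (a uniformly random member `l ω` of a finite family, with the output
gate `out ω` and the upper set `acc ω` of values that mean alarm) detects the unsatisfiable sets of
the constraints `con i`, `i : I`: it raises the alarm if the constraints of an unsatisfiable set are
known to be present and nothing is known about the other ones, and it does not raise the alarm if it
is known for all constraints whether they are present and the present ones are satisfiable, each for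
at least three quarters of the `ω`. -/
def Detects (R : ∀ i, Set (Fin (ar i) → B)) {V I D : Type} [PartialOrder D] (con : I → Con ar V)
    {Ω : Type} [Fintype Ω] (l : Ω → List (Know I → D)) : Prop :=
  ∃ (out : Ω → Know I → D) (acc : Ω → Set D), (∀ ω, out ω ∈ l ω) ∧ (∀ ω, IsUpperSet (acc ω)) ∧
    (∀ X : Finset I, ¬ Solvable R con X → 3 * Fintype.card Ω ≤
      4 * (univ.filter fun ω => out ω (truths fun i => i ∈ X) ∈ acc ω).card) ∧
    ∀ X : Finset I, Solvable R con X → 3 * Fintype.card Ω ≤
      4 * (univ.filter fun ω => out ω (full fun i => i ∈ X) ∉ acc ω).card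

/-- For every `ε > 0` and every large `N` there are constraints `con i`, `i : I`, with variables in
`V`, `|V| + |I| ≤ N`, such that for every tree-like order `D` of states of knowledge every randomised
circuit over `D` that detects the unsatisfiable sets of these constraints has a member with at least
`exp (N ^ (1 / 2 - ε)) - 1` gates. -/
def HardU (R : ∀ i, Set (Fin (ar i) → B)) : Prop := ∀ ε : ℝ, 0 < ε → ∃ N₀ : ℕ, ∀ N : ℕ, N₀ ≤ N →
  ∃ (V I : Type) (_ : Fintype V) (_ : Fintype I) (con : I → Con ar V),
    Fintype.card V + Fintype.card I ≤ N ∧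
    ∀ (D : Type) [PartialOrder D], TreeLike D → ∀ (Ω : Type) [Fintype Ω] [Nonempty Ω]
      (l : Ω → List (Know I → D)), (∀ ω, Circ (l ω)) → Detects R con l →
      ∃ ω, Real.exp ((N : ℝ) ^ (1 / 2 - ε)) ≤ (l ω).length + 1

/-- There is a number `c` such that for all finite families of constraints and every order `D` of
states of knowledge with two elements `a < b` some circuit over `D` of size at most
`c (|V| + |I| + 1) ^ c` has the value `b` if the constraints that are known to be present are
unsatisfiable, and the value `a` otherwise. -/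
def EasyU (R : ∀ i, Set (Fin (ar i) → B)) : Prop := ∃ c : ℕ, ∀ (V I : Type) [Fintype V] [Fintype I]
    (con : I → Con ar V) (D : Type) [PartialOrder D] (a b : D), a < b →
  ∃ l : List (Know I → D), Circ l ∧ l.length ≤ c * (Fintype.card V + Fintype.card I + 1) ^ c ∧
    (fun P => if Solvable R con (univ.filter fun i => P i = some true) then a else b) ∈ l

theorem hardU_of {R : ∀ i, Set (Fin (ar i) → B)} (h : Hard R) : HardU R := by
  intro ε hε
  obtain ⟨N₀, hN⟩ := h 0 le_rfl zero_lt_one ε hε
  refine ⟨N₀, fun N hNN => ?_⟩
  obtain ⟨V, I, fV, fI, con, hc, hmain⟩ := hN N hNN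
  refine ⟨V, I, fV, fI, con, hc, fun D _ hD Ω _ _ l hl hs => ?_⟩
  obtain ⟨out, acc, h1, h2, h3, h4⟩ := hs
  have hsim := fun ω => simulate_out hD (fun (X : Finset I) (e : I) => e ∈ X)
    (fun l' => FProg (bits I) l' []) FProg.nil
    (fun l' e hl' => FProg.input hl' (Or.inl ⟨e, by funext X; congr⟩))
    (fun l' c hl' => FProg.input hl' (Or.inr ⟨c, rfl⟩))
    (fun l' Φ F G hl' hΦ hF hG => FProg.gate hl' hΦ hF hG) (hl ω) (acc ω) (h2 ω) (h1 ω)
  choose l' g1 g2 F g3 g4 using hsim
  obtain ⟨ω, hω⟩ := hmain Ω l' (fun _ => []) F 1 g1 g3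
    (fun _ => by rw [Real.rpow_zero]; simp [combos])
    (fun X hX => (h3 X hX).trans (Nat.mul_le_mul_left _ (card_le_card fun ω hω => by
      rw [mem_filter] at hω ⊢
      exact ⟨hω.1, (g4 ω X).1 hω.2⟩)))
    (fun X hX => (h4 X hX).trans (Nat.mul_le_mul_left _ (card_le_card fun ω hω => by
      rw [mem_filter] at hω ⊢
      refine ⟨hω.1, ?_⟩
      by_contra hcon
      push Not at hcon
      exact hω.2 (h2 ω ((hl ω).mono _ (h1 ω) _ _ (truths_le_full _)) ((g4 ω X).2 hcon)))))
  refine ⟨ω, ?_⟩
  have hw : wires ([] : List (List ((Finset I → ℝ) × ℝ))) = 0 := rfl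
  rw [hw, g2, Nat.cast_zero, add_zero, sub_zero] at hω
  push_cast at hω
  exact hω

section easy

variable {I D : Type} [PartialOrder D] (a b : D)

/-- the function of the knowledge that belongs to a Boolean function -/
noncomputable def prm (F : (I → Bool) → Bool) (P : Know I) : D :=
  if F (fun i => decide (P i = some true)) = true then b else a

/-- the input gates -/
noncomputable def base (I : Type) [Fintype I] : List (Know I → D) :=
  ((univ : Finset I).toList.map fun i P => if P i = some true then b else a) ++
    [fun _ => a, fun _ => b]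

theorem circ_base [Fintype I] (hab : a < b) : Circ (base a b I) := by
  unfold base
  induction (univ : Finset I).toList with
  | nil => exact Circ.const a (Circ.const b Circ.nil)
  | cons i l ih =>
    refine Circ.input i (fun o => if o = some true then b else a) ih ?_
    intro o
    rw [if_neg (by simp)]
    split_ifs
    · exact hab.le
    · exact le_rfl

theorem avail_mem [Fintype I] {L : List ((I → Bool) → Bool)} {f : (I → Bool) → Bool}
    (hf : Avail L f) : prm a b f ∈ L.map (prm a b) ++ base a b I := by
  rw [List.mem_append]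
  rcases hf with ⟨t, rfl⟩ | ⟨i, rfl⟩ | hf
  · right
    unfold base
    rw [List.mem_append]
    right
    cases t with
    | false =>
      have : prm a b (fun _ : I → Bool => false) = fun _ => a := by
        funext X
        simp [prm]
      rw [this]
      simp
    | true =>
      have : prm a b (fun _ : I → Bool => true) = fun _ => b := by
        funext X
        simp [prm]
      rw [this]
      simp
  · right
    unfold base
    rw [List.mem_append, List.mem_map]
    left
    refine ⟨i, Finset.mem_toList.2 (Finset.mem_univ i), ?_⟩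
    funext X
    unfold prm
    simp
  · left
    exact List.mem_map_of_mem hf

theorem circ_of [Fintype I] (hab : a < b) {L : List ((I → Bool) → Bool)} (h : MCirc I L) :
    Circ (L.map (prm a b) ++ base a b I) := by
  have hba : ¬ b ≤ a := not_le_of_gt hab
  have hval : ∀ (F : (I → Bool) → Bool) (P : Know I),
      b ≤ prm a b F P ↔ F (fun i => decide (P i = some true)) = true := by
    intro F P
    unfold prm
    split_ifs with h1
    · exact ⟨fun _ => h1, fun _ => le_rfl⟩
    · exact ⟨fun h2 => absurd h2 hba, fun h2 => absurd h2 h1⟩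
  induction h with
  | nil => exact circ_base a b hab
  | @and L f g _ hf hg ih =>
    have h1 := Circ.gate (φ := fun x y => if b ≤ x ∧ b ≤ y then b else a) ih
      (fun x x' y y' h1 h2 => by
        by_cases h3 : b ≤ x ∧ b ≤ y
        · rw [if_pos h3, if_pos ⟨h3.1.trans h1, h3.2.trans h2⟩]
        · rw [if_neg h3]
          split_ifs
          · exact hab.le
          · exact le_rfl) (avail_mem a b hf) (avail_mem a b hg)
    have h2 : (fun P : Know I => if b ≤ prm a b f P ∧ b ≤ prm a b g P then b else a) =
        prm a b (fun x => f x && g x) := by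
      funext P
      rw [hval, hval]
      unfold prm
      simp only [Bool.and_eq_true]
      congr
    rw [List.map_cons, List.cons_append, ← h2]
    exact h1
  | @or L f g _ hf hg ih =>
    have h1 := Circ.gate (φ := fun x y => if b ≤ x ∨ b ≤ y then b else a) ih
      (fun x x' y y' h1 h2 => by
        by_cases h3 : b ≤ x ∨ b ≤ y
        · rw [if_pos h3, if_pos (h3.imp (fun h => h.trans h1) (fun h => h.trans h2))]
        · rw [if_neg h3]
          split_ifs
          · exact hab.le
          · exact le_rfl) (avail_mem a b hf) (avail_mem a b hg)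
    have h2 : (fun P : Know I => if b ≤ prm a b f P ∨ b ≤ prm a b g P then b else a) =
        prm a b (fun x => f x || g x) := by
      funext P
      rw [hval, hval]
      unfold prm
      simp only [Bool.or_eq_true]
      congr
    rw [List.map_cons, List.cons_append, ← h2]
    exact h1

end easy

theorem easyU_of {R : ∀ i, Set (Fin (ar i) → B)} (h : Easy R) : EasyU R := by
  obtain ⟨c, hc⟩ := h
  refine ⟨c + 3, fun V I _ _ con D _ a b hab => ?_⟩
  obtain ⟨L, hL, hlen, hav⟩ := hc V I con
  refine ⟨L.map (prm a b) ++ base a b I, circ_of a b hab hL, ?_, ?_⟩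
  · have h1 : (base a b I).length = Fintype.card I + 2 := by
      unfold base
      rw [List.length_append, List.length_map, Finset.length_toList, Finset.card_univ]
      rfl
    rw [List.length_append, List.length_map, h1]
    set m : ℕ := Fintype.card V + Fintype.card I + 1 with hm
    have hm1 : 1 ≤ m := by omega
    have h2 : m ^ c ≤ m ^ (c + 3) := Nat.pow_le_pow_right hm1 (by omega)
    have h3 : m ≤ m ^ (c + 3) := Nat.le_self_pow (by omega) m
    have h4 : c * m ^ c ≤ c * m ^ (c + 3) := Nat.mul_le_mul_left c h2
    have h5 : (c + 3) * m ^ (c + 3) = c * m ^ (c + 3) + 3 * m ^ (c + 3) := by ring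
    omega
  · have h1 := avail_mem a b hav
    convert h1 using 1
    funext P
    unfold prm
    simp only [decide_eq_true_eq]
    by_cases h2 : Solvable R con (univ.filter fun i => P i = some true)
    · rw [if_pos h2, if_neg (not_not.2 h2)]
    · rw [if_neg h2, if_pos h2]

theorem excl {R : ∀ i, Set (Fin (ar i) → B)} (hE : EasyU R) (hH : HardU R) : False := by
  obtain ⟨c, hc⟩ := hE
  obtain ⟨N₀, hN₀⟩ := hH (1 / 4) (by norm_num)
  obtain ⟨N, hN, hlarge⟩ := exists_large c N₀
  obtain ⟨V, I, _, _, con, hcard, hmain⟩ := hN₀ N hN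
  obtain ⟨l, hl, hlen, hmem⟩ := hc V I con ℝ 0 1 zero_lt_one
  obtain ⟨F0, hF0⟩ : ∃ F0 : Know I → ℝ, F0 = fun P =>
    if Solvable R con (univ.filter fun i => P i = some true) then 0 else 1 := ⟨_, rfl⟩
  have hmem0 : F0 ∈ l := by rw [hF0]; exact hmem
  have h1t : ∀ X : Finset I, ¬ Solvable R con X → F0 (truths fun i => i ∈ X) = 1 := by
    intro X hX
    have e1 : (univ.filter fun i => (truths (fun i => i ∈ X)) i = some true) = X := by
      ext i
      simp [truths]
    rw [hF0]
    dsimp only
    rw [e1, if_neg hX]
  have h1f : ∀ X : Finset I, Solvable R con X → F0 (full fun i => i ∈ X) = 0 := by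
    intro X hX
    have e1 : (univ.filter fun i => (full (fun i => i ∈ X)) i = some true) = X := by
      ext i
      simp [full]
    rw [hF0]
    dsimp only
    rw [e1, if_pos hX]
  have hdet : Detects R con (fun _ : Unit => l) := by
    refine ⟨fun _ => F0, fun _ => Set.Ici 1, fun _ => hmem0, fun _ => isUpperSet_Ici 1,
      fun X hX => ?_, fun X hX => ?_⟩
    · have e : (univ.filter fun _ : Unit => F0 (truths fun i => i ∈ X) ∈ Set.Ici (1 : ℝ)) =
          univ := by
        refine filter_true_of_mem fun _ _ => ?_
        rw [h1t X hX]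
        exact Set.self_mem_Ici
      show 3 * Fintype.card Unit ≤ 4 * (univ.filter fun _ : Unit =>
        F0 (truths fun i => i ∈ X) ∈ Set.Ici (1 : ℝ)).card
      rw [e, card_univ]
      omega
    · have e : (univ.filter fun _ : Unit => F0 (full fun i => i ∈ X) ∉ Set.Ici (1 : ℝ)) =
          univ := by
        refine filter_true_of_mem fun _ _ => ?_
        rw [h1f X hX]
        simp
      show 3 * Fintype.card Unit ≤ 4 * (univ.filter fun _ : Unit =>
        F0 (full fun i => i ∈ X) ∉ Set.Ici (1 : ℝ)).card
      rw [e, card_univ]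
      omega
  obtain ⟨_, hω⟩ := hmain ℝ treeLike_real Unit (fun _ => l) (fun _ => hl) hdet
  have h1 : c * (Fintype.card V + Fintype.card I + 1) ^ c ≤ c * (N + 1) ^ c :=
    Nat.mul_le_mul_left c (Nat.pow_le_pow_left (by omega) c)
  have h2 : ((l.length + 1 : ℕ) : ℝ) ≤ ((c * (N + 1) ^ c + N + 2 : ℕ) : ℝ) := by
    exact_mod_cast (by omega : l.length + 1 ≤ c * (N + 1) ^ c + N + 2)
  have h3 : (1 : ℝ) / 2 - 1 / 4 = (1 - (0 : ℝ)) / 2 - 1 / 4 := by norm_num
  rw [h3] at hω
  push_cast at h2 hlarge
  linarith

/-- ORs of inputs -/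
theorem or_circ {I : Type} (S : Finset I) : ∃ L : List ((I → Bool) → Bool), MCirc I L ∧
    L.length ≤ S.card ∧ Avail L (fun x => decide (∃ i ∈ S, x i = true)) := by
  induction S using Finset.induction_on with
  | empty =>
    refine ⟨[], MCirc.nil, by simp, Or.inl ⟨false, ?_⟩⟩
    funext x
    simp
  | insert i S hi ih =>
    obtain ⟨L, h1, h2, h3⟩ := ih
    refine ⟨_, MCirc.or (f := fun x => x i) h1 (Or.inr (Or.inl ⟨i, rfl⟩)) h3, ?_, ?_⟩
    · rw [List.length_cons, card_insert_of_notMem hi]
      omega
    · refine Or.inr (Or.inr (List.mem_cons.2 (Or.inl ?_)))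
      funext x
      rw [Bool.eq_iff_iff]
      simp

theorem easy_of_const {R : ∀ i, Set (Fin (ar i) → B)} (h : Pool.Agent.W994.AR.ConstEndo R) :
    Easy R := by
  obtain ⟨b, hb⟩ := h
  refine ⟨1, fun V I _ _ con => ?_⟩
  obtain ⟨L, h1, h2, h3⟩ := or_circ (univ.filter fun i => ¬ (R (con i).1).Nonempty)
  refine ⟨L, h1, ?_, ?_⟩
  · have := card_filter_le (univ : Finset I) fun i => ¬ (R (con i).1).Nonempty
    rw [card_univ] at this
    rw [one_mul, pow_one]
    omega
  · convert h3 using 1
    funext x
    rw [decide_eq_decide]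
    constructor
    · intro h4
      by_contra h5
      refine h4 ⟨fun _ => b, fun i hi => ?_⟩
      have h6 : (R (con i).1).Nonempty := by
        by_contra h7
        have h8 : i ∈ univ.filter fun i => ¬ (R (con i).1).Nonempty :=
          mem_filter.2 ⟨mem_univ _, h7⟩
        exact h5 ⟨i, h8, (mem_filter.1 hi).2⟩
      obtain ⟨v, hv⟩ := h6
      exact hb (con i).1 v hv
    · rintro ⟨i, hi, hx⟩ ⟨z, hz⟩
      exact (mem_filter.1 hi).2 ⟨_, hz i (mem_filter.2 ⟨mem_univ _, hx⟩)⟩

/-- the two notions of a pp-construction -/
theorem constructs_of {R : ∀ i, Set (Fin (ar i) → B)}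
    (h : Pool.Agent.W994.AR.PPConstructsK3 R) : ConstructsK3 R := by
  obtain ⟨n, E, -, ⟨q, Φ, hΦ⟩, hf, hg⟩ := h
  refine ⟨n, E, ⟨Fin q, inferInstance, Φ.filterMap (fun φ => match φ with
    | .rel i x => some ⟨i, x⟩
    | .eq _ _ => none), Φ.filterMap (fun φ => match φ with
    | .rel _ _ => none
    | .eq x y => some (x, y)), fun f => ?_⟩, hf, hg⟩
  rw [hΦ]
  refine exists_congr fun u => ?_
  constructor
  · intro h
    constructor
    · intro c hc
      rw [List.mem_filterMap] at hc
      obtain ⟨φ, hφ, h1⟩ := hc
      cases φ with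
      | eq x y => simp at h1
      | rel i x =>
        simp only [Option.some.injEq] at h1
        subst h1
        exact h _ hφ
    · intro e he
      rw [List.mem_filterMap] at he
      obtain ⟨φ, hφ, h1⟩ := he
      cases φ with
      | rel i x => simp at h1
      | eq x y =>
        simp only [Option.some.injEq] at h1
        subst h1
        exact h _ hφ
  · rintro ⟨h1, h2⟩ φ hφ
    cases φ with
    | eq x y => exact h2 (x, y) (List.mem_filterMap.2 ⟨_, hφ, rfl⟩)
    | rel i x => exact h1 ⟨i, x⟩ (List.mem_filterMap.2 ⟨_, hφ, rfl⟩)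

/-- some function that respects the knowledge detects the unsatisfiable sets -/
theorem exists_ideal (R : ∀ i, Set (Fin (ar i) → B)) {V I : Type} [Fintype I]
    (con : I → Con ar V) :
    ∃ F : Know I → ℝ, (∀ P Q, Le P Q → F P ≤ F Q) ∧ ∀ X : Finset I,
      (¬ Solvable R con X → F (truths fun i => i ∈ X) = 1) ∧
      (Solvable R con X → F (full fun i => i ∈ X) = 0) := by
  refine ⟨fun P => if Solvable R con (univ.filter fun i => P i = some true) then 0 else 1,
    fun P Q hPQ => ?_, fun X => ⟨fun hX => ?_, fun hX => ?_⟩⟩
  · by_cases hQ : Solvable R con (univ.filter fun i => Q i = some true)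
    · have hP : Solvable R con (univ.filter fun i => P i = some true) := by
        obtain ⟨z, hz⟩ := hQ
        refine ⟨z, fun i hi => hz i (mem_filter.2 ⟨mem_univ _, ?_⟩)⟩
        have h1 := (mem_filter.1 hi).2
        rcases hPQ i with h2 | h2
        · rw [h2] at h1; exact absurd h1 (by simp)
        · rw [← h2]; exact h1
      dsimp only
      rw [if_pos hP, if_pos hQ]
    · dsimp only
      rw [if_neg hQ]
      split_ifs <;> norm_num
  · have e1 : (univ.filter fun i => (truths (fun i => i ∈ X)) i = some true) = X := by
      ext i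
      simp [truths]
    dsimp only
    rw [e1, if_neg hX]
  · have e1 : (univ.filter fun i => (full (fun i => i ∈ X)) i = some true) = X := by
      ext i
      simp [full]
    dsimp only
    rw [e1, if_pos hX]

end Pool.Agent.H698.UC
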